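import Mathlib

/-!
# Abstract part of the construction

A space `P` with a finite-to-one map `g : P → Q`, a root assignment `Rt`, and the space
`X = P ⊕ W` of points of `P` together with isolated witnesses.
-/

namespace Pool.Agent.Helper14.DT

open Set

/-- `δθ`-refinable (submetalindelöf): every open cover `𝒰` has a sequence of open refinements
`𝒱 n` covering the space such that every point lies in at most countably many members of some
`𝒱 n`. -/
def DeltaThetaRefinable (X : Type) [TopologicalSpace X] : Prop :=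
  ∀ 𝒰 : Set (Set X), (∀ U ∈ 𝒰, IsOpen U) → ⋃₀ 𝒰 = Set.univ →
    ∃ 𝒱 : ℕ → Set (Set X),
      (∀ n, (∀ V ∈ 𝒱 n, IsOpen V) ∧ ⋃₀ 𝒱 n = Set.univ ∧ ∀ V ∈ 𝒱 n, ∃ U ∈ 𝒰, V ⊆ U) ∧
      ∀ x, ∃ n, {V | V ∈ 𝒱 n ∧ x ∈ V}.Countable

/-- witnesses -/
structure Wit (P C : Type) where
  K : (P → Set P) → ℕ
  A : Set P
  hA : A.Countable
  c : C

/-- points of the upstairs space -/
inductive XSp (P C : Type) (Rt : (P → Set P) → P → Set P) : Type
  | pt : P → XSp P C Rt
  | wt : Wit P C → XSp P C Rt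

/-- points of the downstairs space -/
inductive YSp {P Q : Type} (C : Type) (Rt : (P → Set P) → P → Set P) (g : P → Q) : Type
  | pt : Q → YSp C Rt g
  | wt : Wit P C → YSp C Rt g

variable {P Q C Λ : Type} {Rt : (P → Set P) → P → Set P} {g : P → Q}

/-- the witness `w` is captured by the neighbourhood data `E, k, F` at `x` -/
def Capt (Rt : (P → Set P) → P → Set P) (x : P) (E : Finset (P → Set P)) (k : ℕ) (F : Finset C)
    (w : Wit P C) : Prop :=
  w.c ∉ F ∧ ∀ τ ∈ E, k < w.K τ ∨ Rt τ x ⊆ w.A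

theorem Capt.mono {x : P} {E E' : Finset (P → Set P)} {k k' : ℕ} {F F' : Finset C}
    {w : Wit P C} (h : Capt Rt x E' k' F' w) (hE : E ⊆ E') (hk : k ≤ k') (hF : F ⊆ F') :
    Capt Rt x E k F w :=
  ⟨fun hc => h.1 (hF hc), fun τ hτ => (h.2 τ (hE hτ)).imp (fun h => lt_of_le_of_lt hk h) id⟩

open Classical in
instance instTopX [TopologicalSpace P] : TopologicalSpace (XSp P C Rt) where
  IsOpen O := IsOpen (XSp.pt ⁻¹' O : Set P) ∧ ∀ x : P, XSp.pt x ∈ O →
    ∃ (E : Finset (P → Set P)) (k : ℕ) (F : Finset C), ∀ w, Capt Rt x E k F w → XSp.wt w ∈ O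
  isOpen_univ := ⟨isOpen_univ, fun _ _ => ⟨∅, 0, ∅, fun _ _ => trivial⟩⟩
  isOpen_inter := by
    rintro O O' ⟨h1, h2⟩ ⟨h1', h2'⟩
    refine ⟨h1.inter h1', fun x hx => ?_⟩
    obtain ⟨E, k, F, h⟩ := h2 x hx.1
    obtain ⟨E', k', F', h'⟩ := h2' x hx.2
    refine ⟨E ∪ E', max k k', F ∪ F', fun w hw => ⟨h w ?_, h' w ?_⟩⟩
    · exact hw.mono Finset.subset_union_left (le_max_left _ _) Finset.subset_union_left
    · exact hw.mono Finset.subset_union_right (le_max_right _ _) Finset.subset_union_right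
  isOpen_sUnion := by
    intro S hS
    constructor
    · have : (XSp.pt ⁻¹' ⋃₀ S : Set P) = ⋃ O ∈ S, XSp.pt ⁻¹' O := by
        ext x; simp
      rw [this]
      exact isOpen_biUnion fun O hO => (hS O hO).1
    · rintro x ⟨O, hO, hx⟩
      obtain ⟨E, k, F, h⟩ := (hS O hO).2 x hx
      exact ⟨E, k, F, fun w hw => ⟨O, hO, h w hw⟩⟩

theorem isOpen_X [TopologicalSpace P] {O : Set (XSp P C Rt)} :
    IsOpen O ↔ (IsOpen (XSp.pt ⁻¹' O : Set P) ∧ ∀ x : P, XSp.pt x ∈ O →
    ∃ (E : Finset (P → Set P)) (k : ℕ) (F : Finset C), ∀ w, Capt Rt x E k F w → XSp.wt w ∈ O) :=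
  Iff.rfl

/-- the map -/
def fmap : XSp P C Rt → YSp C Rt g
  | .pt x => .pt (g x)
  | .wt w => .wt w

instance instTopY [TopologicalSpace P] : TopologicalSpace (YSp C Rt g) :=
  TopologicalSpace.coinduced (fmap (Rt := Rt) (g := g) (C := C)) inferInstance

theorem isOpen_Y [TopologicalSpace P] {O : Set (YSp C Rt g)} :
    IsOpen O ↔ IsOpen (fmap (Rt := Rt) (g := g) (C := C) ⁻¹' O) := Iff.rfl

theorem fmap_cont [TopologicalSpace P] : Continuous (fmap (Rt := Rt) (g := g) (C := C)) :=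
  continuous_coinduced_rng

theorem fmap_surj (hg : Function.Surjective g) :
    Function.Surjective (fmap (Rt := Rt) (g := g) (C := C)) := by
  rintro (q | w)
  · obtain ⟨x, rfl⟩ := hg q
    exact ⟨.pt x, rfl⟩
  · exact ⟨.wt w, rfl⟩

theorem fmap_fib (hf : ∀ q, (g ⁻¹' {q}).Finite) (y : YSp C Rt g) :
    (fmap (Rt := Rt) (g := g) (C := C) ⁻¹' {y}).Finite := by
  rcases y with q | w
  · refine ((hf q).image XSp.pt).subset ?_
    rintro (x | w) hx
    · simp only [fmap, mem_preimage, mem_singleton_iff, YSp.pt.injEq] at hx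
      exact ⟨x, hx, rfl⟩
    · simp [fmap] at hx
  · refine (Set.finite_singleton (XSp.wt w)).subset ?_
    rintro (x | w') hx
    · simp [fmap] at hx
    · simp only [fmap, mem_preimage, mem_singleton_iff, YSp.wt.injEq] at hx
      simp [hx]

theorem fmap_closed [TopologicalSpace P]
    (h4 : ∀ O : Set P, IsOpen O → IsOpen {x | ∀ x', g x' = g x → x' ∈ O}) :
    IsClosedMap (fmap (Rt := Rt) (g := g) (C := C)) := by
  intro F hF
  rw [← isOpen_compl_iff, isOpen_Y]
  rw [← isOpen_compl_iff] at hF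
  have hF' := isOpen_X.1 hF
  rw [isOpen_X]
  constructor
  · have : (XSp.pt ⁻¹' (fmap (Rt := Rt) (g := g) (C := C) ⁻¹' (fmap (g := g) '' F)ᶜ) : Set P)
        = {x | ∀ x', g x' = g x → x' ∈ (XSp.pt ⁻¹' Fᶜ : Set P)} := by
      ext x
      simp only [preimage_compl, mem_compl_iff, mem_preimage, mem_image, mem_ofPred_eq, fmap]
      constructor
      · intro h x' hx' hF
        exact h ⟨.pt x', hF, by simp [hx']⟩
      · rintro h ⟨z, hz, hz'⟩
        rcases z with x' | w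
        · simp only [YSp.pt.injEq] at hz'
          exact h x' hz' hz
        · simp at hz'
    rw [this]
    exact h4 _ hF'.1
  · intro x hx
    have hx' : XSp.pt x ∈ Fᶜ := fun h => hx ⟨_, h, rfl⟩
    obtain ⟨E, k, G, h⟩ := hF'.2 x hx'
    refine ⟨E, k, G, fun w hw => ?_⟩
    rintro ⟨z, hz, hz'⟩
    rcases z with x' | w'
    · simp [fmap] at hz'
    · simp only [fmap, YSp.wt.injEq] at hz'
      subst hz'
      exact h _ hw hz

theorem t1X [TopologicalSpace P] [T1Space P] : T1Space (XSp P C Rt) := by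
  refine ⟨fun z => ?_⟩
  rw [← isOpen_compl_iff, isOpen_X]
  rcases z with p | w
  · constructor
    · have : (XSp.pt ⁻¹' ({XSp.pt p}ᶜ : Set (XSp P C Rt)) : Set P) = {p}ᶜ := by
        ext x; simp
      rw [this]
      exact isOpen_compl_singleton
    · intro x _
      exact ⟨∅, 0, ∅, fun w _ => by simp⟩
  · constructor
    · have : (XSp.pt ⁻¹' ({XSp.wt w}ᶜ : Set (XSp P C Rt)) : Set P) = univ := by
        ext x; simp
      rw [this]
      exact isOpen_univ
    · intro x _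
      refine ⟨∅, 0, {w.c}, fun w' hw' => ?_⟩
      have := hw'.1
      simp only [Finset.mem_singleton] at this
      intro h
      simp only [mem_singleton_iff, XSp.wt.injEq] at h
      exact this (by rw [h])

theorem t1Y [TopologicalSpace P] [T1Space P] (hg : Function.Surjective g)
    (h4 : ∀ O : Set P, IsOpen O → IsOpen {x | ∀ x', g x' = g x → x' ∈ O}) :
    T1Space (YSp C Rt g) := by
  refine ⟨fun y => ?_⟩
  obtain ⟨z, rfl⟩ := fmap_surj (Rt := Rt) (g := g) (C := C) hg y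
  have := t1X (P := P) (C := C) (Rt := Rt)
  have h := fmap_closed (Rt := Rt) (g := g) (C := C) h4 {z} isClosed_singleton
  simpa using h

/-- `X` is `δθ`-refinable. -/
theorem thmA [TopologicalSpace P]
    (h1 : ∀ τ x, (Rt τ x).Nonempty) (h1' : ∀ τ x, (Rt τ x).Countable)
    (h2 : ∀ τ p, IsOpen {x | p ∈ Rt τ x})
    (h3 : ∀ τ : P → Set P, (∀ p, IsOpen (τ p) ∧ p ∈ τ p) → ∀ p x, p ∈ Rt τ x → x ∈ τ p) :
    DeltaThetaRefinable (XSp P C Rt) := by
  classical
  intro 𝒰 hop hcov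
  have hc : ∀ z : XSp P C Rt, ∃ U ∈ 𝒰, z ∈ U := fun z => by
    have : z ∈ ⋃₀ 𝒰 := by rw [hcov]; trivial
    exact this
  choose U hU hzU using hc
  let τ : P → Set P := fun p => (XSp.pt ⁻¹' U (XSp.pt p) : Set P)
  have hτ : ∀ p, IsOpen (τ p) ∧ p ∈ τ p := fun p =>
    ⟨(isOpen_X.1 (hop _ (hU (XSp.pt p)))).1, hzU (XSp.pt p)⟩
  let N : ℕ → P → Set (XSp P C Rt) := fun k p => {z | match z with
    | .pt x => p ∈ Rt τ x
    | .wt w => XSp.wt w ∈ U (.pt p) ∧ (k < w.K τ ∨ p ∈ w.A)}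
  have hNU : ∀ k p, N k p ⊆ U (.pt p) := by
    intro k p z hz
    rcases z with x | w
    · exact h3 τ hτ p x hz
    · exact hz.1
  have hNo : ∀ k p, IsOpen (N k p) := by
    intro k p
    rw [isOpen_X]
    refine ⟨h2 τ p, fun x hx => ?_⟩
    obtain ⟨E, k', F, h⟩ := (isOpen_X.1 (hop _ (hU (XSp.pt p)))).2 x (hNU k p hx)
    refine ⟨insert τ E, max k k', F, fun w hw => ⟨h w ?_, ?_⟩⟩
    · exact hw.mono (Finset.subset_insert _ _) (le_max_right _ _) (Finset.Subset.refl _)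
    · rcases hw.2 τ (Finset.mem_insert_self _ _) with h | h
      · exact Or.inl (lt_of_le_of_lt (le_max_left _ _) h)
      · exact Or.inr (h hx)
  have hSo : ∀ w : Wit P C, IsOpen ({XSp.wt w} : Set (XSp P C Rt)) := by
    intro w
    rw [isOpen_X]
    constructor
    · have : (XSp.pt ⁻¹' ({XSp.wt w} : Set (XSp P C Rt)) : Set P) = ∅ := by
        ext x; simp
      rw [this]; exact isOpen_empty
    · intro x hx
      simp at hx
  refine ⟨fun k => range (N k) ∪ range (fun w : Wit P C => {XSp.wt w}), fun k => ⟨?_, ?_, ?_⟩, ?_⟩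
  · rintro V (⟨p, rfl⟩ | ⟨w, rfl⟩)
    · exact hNo k p
    · exact hSo w
  · refine eq_univ_of_forall fun z => ?_
    rcases z with x | w
    · obtain ⟨p, hp⟩ := h1 τ x
      exact ⟨N k p, Or.inl ⟨p, rfl⟩, hp⟩
    · exact ⟨{XSp.wt w}, Or.inr ⟨w, rfl⟩, rfl⟩
  · rintro V (⟨p, rfl⟩ | ⟨w, rfl⟩)
    · exact ⟨_, hU _, hNU k p⟩
    · refine ⟨_, hU (.wt w), ?_⟩
      rintro z rfl
      exact hzU _
  · intro z
    rcases z with x | w
    · refine ⟨0, ((h1' τ x).image (N 0)).mono ?_⟩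
      rintro V ⟨⟨p, rfl⟩ | ⟨w, rfl⟩, hV⟩
      · exact ⟨p, hV, rfl⟩
      · simp at hV
    · refine ⟨w.K τ, ((w.hA.image (N (w.K τ))).union
        (countable_singleton ({XSp.wt w} : Set (XSp P C Rt)))).mono ?_⟩
      rintro V ⟨⟨p, rfl⟩ | ⟨w', rfl⟩, hV⟩
      · left
        refine ⟨p, ?_, rfl⟩
        rcases hV.2 with h | h
        · exact absurd h (lt_irrefl _)
        · exact h
      · right
        simp only [mem_singleton_iff, XSp.wt.injEq] at hV
        simp [hV]

end Pool.Agent.Helper14.DT
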