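import Pool.Agent.Helper14.DT.Sel

/-!
# The concrete spaces: iterated trees with leaves in an index set of size `ℵ_ω`
-/

namespace Pool.Agent.Helper14.DT

open Set Cardinal

/-- coordinates of level `h`: the initial ordinal `ω_h` -/
def K (h : ℕ) : Type := (Cardinal.aleph (h : Ordinal.{0})).ord.ToType

noncomputable instance (h : ℕ) : LinearOrder (K h) :=
  inferInstanceAs (LinearOrder (Ordinal.ToType _))

instance (h : ℕ) : WellFoundedLT (K h) :=
  inferInstanceAs (WellFoundedLT (Ordinal.ToType _))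

theorem mk_K (h : ℕ) : Cardinal.mk (K h) = Cardinal.aleph (h : Ordinal.{0}) :=
  Cardinal.mk_ord_toType _

theorem aleph0_le_alephn (h : ℕ) : Cardinal.aleph0.{0} ≤ Cardinal.aleph (h : Ordinal.{0}) :=
  Cardinal.aleph0_le_aleph _

theorem reg_aleph (h : ℕ) : (Cardinal.aleph (h : Ordinal.{0})).IsRegular := by
  cases h with
  | zero => simpa using Cardinal.isRegular_aleph0
  | succ n =>
    have := Cardinal.isRegular_aleph_add_one (n : Ordinal.{0})
    simpa using this

theorem K_bound {h : ℕ} {ι : Type} (hι : Cardinal.mk ι < Cardinal.aleph (h : Ordinal.{0}))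
    (f : ι → K h) : ∃ α, ∀ i, f i < α := by
  by_contra hc
  push Not at hc
  have hU : (⋃ i, Iic (f i)) = Set.univ := eq_univ_of_forall fun α => by
    obtain ⟨i, hi⟩ := hc α
    exact mem_iUnion.2 ⟨i, hi⟩
  have h1 : Cardinal.mk (⋃ i, Iic (f i) : Set (K h)) < Cardinal.aleph (h : Ordinal.{0}) := by
    rw [Cardinal.card_iUnion_lt_iff_forall_of_isRegular (reg_aleph h) hι]
    intro i
    refine (Cardinal.mk_Iic_lt (f i) ?_ ?_).trans_eq (mk_K h)
    · rw [mk_K]; exact (Ordinal.type_toType _).symm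
    · rw [mk_K]; exact aleph0_le_alephn h
  rw [hU, Cardinal.mk_univ, mk_K] at h1
  exact lt_irrefl _ h1

theorem K_bound_fin {h : ℕ} {ι : Type} [Finite ι] (f : ι → K h) : ∃ α, ∀ i, f i < α :=
  K_bound ((Cardinal.lt_aleph0_of_finite ι).trans_le (aleph0_le_alephn h)) f

instance (h : ℕ) : Nonempty (K h) :=
  (K_bound_fin (ι := Empty) (fun e => e.elim)).nonempty

variable (I : Type) (m : ℕ)

/-- points of height `h` -/
def T : ℕ → Type
  | 0 => I
  | h + 1 => Fin (m + 1) → T h × K h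

/-- addresses of leaves -/
def Pth : ℕ → Type
  | 0 => Unit
  | h + 1 => Fin (m + 1) × Pth h

variable {I m}

/-- the leaf tuple of a point -/
def leaves : ∀ h, T I m h → Pth m h → I
  | 0, y, _ => y
  | h + 1, y, ρ => leaves h (y ρ.1).1 ρ.2

theorem pth_finite : ∀ h, Finite (Pth m h)
  | 0 => inferInstanceAs (Finite Unit)
  | h + 1 => by
    have := pth_finite h
    exact inferInstanceAs (Finite (Fin (m + 1) × Pth m h))

theorem pth_nonempty : ∀ h, Nonempty (Pth m h)
  | 0 => inferInstanceAs (Nonempty Unit)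
  | h + 1 => by
    have := pth_nonempty h
    exact inferInstanceAs (Nonempty (Fin (m + 1) × Pth m h))

/-- the set of values on an address -/
def vals : ∀ h, Pth m h → Finset (Fin (m + 1))
  | 0, _ => ∅
  | h + 1, ρ => insert ρ.1 (vals h ρ.2)

theorem vals_card : ∀ h (ρ : Pth m h), (vals h ρ).card ≤ h
  | 0, _ => le_rfl
  | h + 1, ρ => (Finset.card_insert_le _ _).trans (Nat.succ_le_succ (vals_card h ρ.2))

theorem exists_not_mem_vals {h : ℕ} (hm : h ≤ m) (ρ : Pth m h) : ∃ l, l ∉ vals h ρ := by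
  by_contra hc
  push Not at hc
  have : (Finset.univ : Finset (Fin (m + 1))).card ≤ (vals h ρ).card :=
    Finset.card_le_card fun l _ => hc l
  have h2 := vals_card h ρ
  simp only [Finset.card_univ, Fintype.card_fin] at this
  omega

variable (m) in
/-- the tuple of all coordinates -/
def Coord : ℕ → Type
  | 0 => Unit
  | h + 1 => Fin (m + 1) → Coord h × K h

/-- the coordinates of a point -/
def coord : ∀ h, T I m h → Coord m h
  | 0, _ => ()
  | h + 1, y => fun j => (coord h (y j).1, (y j).2)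

theorem coord_inj : ∀ h (y y' : T I m h), leaves h y = leaves h y' → coord h y = coord h y' → y = y'
  | 0, y, y', h, _ => congrFun h ()
  | h + 1, y, y', hl, hc => by
    funext j
    have h1 : leaves h (y j).1 = leaves h (y' j).1 := by
      funext ρ
      exact congrFun hl (j, ρ)
    have h2 : (coord h (y j).1, (y j).2) = (coord h (y' j).1, (y' j).2) := congrFun hc j
    obtain ⟨h3, h4⟩ := Prod.mk.inj h2
    exact Prod.ext (coord_inj h _ _ h1 h3) h4

theorem mk_Coord_lt : ∀ h, Cardinal.mk (Coord m h) < Cardinal.aleph (h : Ordinal.{0})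
  | 0 => by
    have : Cardinal.mk (Coord m 0) = 1 := Cardinal.mk_eq_one Unit
    rw [this]
    exact Cardinal.one_lt_aleph0.trans_le (aleph0_le_alephn 0)
  | h + 1 => by
    have ih := mk_Coord_lt h
    have h1 : Cardinal.mk (Coord m (h + 1)) = Cardinal.mk (Coord m h × K h) ^ (m + 1) := by
      have : Cardinal.mk (Coord m (h + 1)) = Cardinal.mk (Fin (m + 1) → Coord m h × K h) := rfl
      rw [this, ← Cardinal.power_natCast]
      simp
    have h2 : Cardinal.mk (Coord m h × K h) ≤ Cardinal.aleph (h : Ordinal.{0}) := by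
      rw [Cardinal.mk_prod, Cardinal.lift_id, Cardinal.lift_id, mk_K]
      exact (mul_le_mul' ih.le le_rfl).trans
        (Cardinal.mul_eq_self (aleph0_le_alephn h)).le
    rw [h1]
    refine (pow_le_pow_left' h2 _).trans_lt ?_
    refine (Cardinal.power_nat_le (aleph0_le_alephn h)).trans_lt ?_
    exact Cardinal.aleph_lt_aleph.2 (by exact_mod_cast Nat.lt_succ_self h)

theorem exists_bnd {h : ℕ} (a : T I m h → K h) (t : Pth m h → I) :
    ∃ β : K h, ∀ y, leaves h y = t → a y < β := by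
  have hinj : Function.Injective (fun y : {y : T I m h // leaves h y = t} => coord h y.1) := by
    intro y y' hyy'
    exact Subtype.ext (coord_inj h _ _ (y.2.trans y'.2.symm) hyy')
  obtain ⟨β, hβ⟩ := K_bound (((Cardinal.mk_le_of_injective hinj)).trans_lt (mk_Coord_lt h))
    (fun y => a y.1)
  exact ⟨β, fun y hy => hβ ⟨y, hy⟩⟩

variable (I m) in
/-- the points of `P` (for one value of `m`): a point of some height with a view -/
structure Pt where
  h : ℕ
  y : T I m h
  l : Fin (m + 1)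

variable (I m) in
/-- the points of `Q` (for one value of `m`) -/
structure Qt where
  h : ℕ
  y : T I m h

/-- forgetting the view -/
def gm (x : Pt I m) : Qt I m := ⟨x.h, x.y⟩

instance instTopPt : TopologicalSpace (Pt I m) where
  IsOpen O := ∀ h (y : T I m h) (l : Fin (m + 1)), (⟨h, y, l⟩ : Pt I m) ∈ O →
    ∃ α : K h, ∀ (y' : T I m (h + 1)) (j : Fin (m + 1)), (y' j).1 = y → α ≤ (y' j).2 →
      (⟨h + 1, y', l⟩ : Pt I m) ∈ O
  isOpen_univ := fun h _ _ _ => ⟨Classical.arbitrary _, fun _ _ _ _ => trivial⟩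
  isOpen_inter := by
    intro O O' hO hO' h y l hx
    obtain ⟨α, hα⟩ := hO h y l hx.1
    obtain ⟨α', hα'⟩ := hO' h y l hx.2
    exact ⟨max α α', fun y' j h1 h2 => ⟨hα y' j h1 ((le_max_left _ _).trans h2),
      hα' y' j h1 ((le_max_right _ _).trans h2)⟩⟩
  isOpen_sUnion := by
    rintro S hS h y l ⟨O, hO, hx⟩
    obtain ⟨α, hα⟩ := hS O hO h y l hx
    exact ⟨α, fun y' j h1 h2 => ⟨O, hO, hα y' j h1 h2⟩⟩

theorem isOpen_Pt {O : Set (Pt I m)} : IsOpen O ↔
    ∀ h (y : T I m h) (l : Fin (m + 1)), (⟨h, y, l⟩ : Pt I m) ∈ O →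
    ∃ α : K h, ∀ (y' : T I m (h + 1)) (j : Fin (m + 1)), (y' j).1 = y → α ≤ (y' j).2 →
      (⟨h + 1, y', l⟩ : Pt I m) ∈ O := Iff.rfl

theorem t1Pt : T1Space (Pt I m) := by
  refine ⟨fun p => ?_⟩
  rw [← isOpen_compl_iff, isOpen_Pt]
  intro h y l _
  obtain ⟨h', y₀, l₀⟩ := p
  by_cases hh : h' = h + 1
  · subst hh
    obtain ⟨α, hα⟩ := K_bound_fin (fun j => (y₀ j).2)
    refine ⟨α, fun y' j _ h2 => ?_⟩
    rw [mem_compl_iff, mem_singleton_iff]
    intro heq
    have hy : y' = y₀ := by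
      injection heq
    rw [hy] at h2
    exact absurd h2 (not_le.2 (hα j))
  · refine ⟨Classical.arbitrary _, fun y' j _ _ => ?_⟩
    rw [mem_compl_iff, mem_singleton_iff]
    intro heq
    exact hh (congrArg Pt.h heq).symm

theorem gm_h4 (O : Set (Pt I m)) (hO : IsOpen O) : IsOpen {x | ∀ x', gm x' = gm x → x' ∈ O} := by
  rw [isOpen_Pt] at *
  intro h y l hx
  have h1 : ∀ l', ∃ α : K h, ∀ (y' : T I m (h + 1)) (j : Fin (m + 1)), (y' j).1 = y →
      α ≤ (y' j).2 → (⟨h + 1, y', l'⟩ : Pt I m) ∈ O := fun l' => hO h y l' (hx ⟨h, y, l'⟩ rfl)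
  choose α hα using h1
  obtain ⟨β, hβ⟩ := K_bound_fin α
  refine ⟨β, fun y' j h1 h2 x' hx' => ?_⟩
  obtain ⟨h', z, l'⟩ := x'
  have e : (⟨h', z, l'⟩ : Pt I m) = ⟨h + 1, y', l'⟩ := by
    simp only [gm, Qt.mk.injEq] at hx'
    obtain ⟨rfl, h3⟩ := hx'
    rw [eq_of_heq h3]
  rw [e]
  exact hα l' y' j h1 ((hβ l').le.trans h2)

theorem gm_surj : Function.Surjective (gm : Pt I m → Qt I m) := fun q => ⟨⟨q.h, q.y, 0⟩, rfl⟩

theorem gm_fib (q : Qt I m) : (gm ⁻¹' {q} : Set (Pt I m)).Finite := by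
  refine (Set.finite_range fun l : Fin (m + 1) => (⟨q.h, q.y, l⟩ : Pt I m)).subset ?_
  rintro ⟨h, y, l⟩ hx
  have : q = ⟨h, y⟩ := (mem_singleton_iff.1 hx).symm
  subst this
  exact ⟨l, rfl⟩

/-- `v` is a leaf of `q` -/
def Um (v : I) : Set (Qt I m) := {q | v ∈ range (leaves q.h q.y)}

theorem Um_open (v : I) : IsOpen (gm ⁻¹' Um v : Set (Pt I m)) := by
  rw [isOpen_Pt]
  rintro h y l ⟨ρ, hρ⟩
  refine ⟨Classical.arbitrary _, fun y' j h1 _ => ?_⟩
  refine ⟨((j, ρ) : Fin (m + 1) × Pth m h), ?_⟩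
  change leaves h (y' j).1 ρ = v
  rw [h1]
  exact hρ

theorem Um_cover (q : Qt I m) : ∃ v, q ∈ Um v := by
  obtain ⟨ρ⟩ := pth_nonempty (m := m) q.h
  exact ⟨leaves q.h q.y ρ, ρ, rfl⟩

end Pool.Agent.Helper14.DT
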