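import Pool.Agent.Helper14.DT.Root

/-!
# The sum over all `m` and the final theorem
-/

namespace Pool.Agent.Helper14.DT

open Set

variable (I : Type)

/-- upstairs points: all `m` -/
abbrev PP : Type := Σ m : ℕ, Pt I m

/-- downstairs points: all `m` -/
abbrev QQ : Type := Σ m : ℕ, Qt I m

variable {I}

/-- forget the view -/
def gg (x : PP I) : QQ I := ⟨x.1, gm x.2⟩

/-- restriction of a code to one value of `m` -/
def restr (m : ℕ) (τ : PP I → Set (PP I)) : Code I m := fun p => Sigma.mk m ⁻¹' τ ⟨m, p⟩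

/-- roots in the sum -/
noncomputable def Rt (τ : PP I → Set (PP I)) (x : PP I) : Set (PP I) :=
  Sigma.mk x.1 '' Rp (restr x.1 τ) x.2

/-- labels in the sum -/
def UU (v : I) : Set (QQ I) := {q | q.2 ∈ Um v}

instance : T1Space (PP I) := by
  refine ⟨fun p => ?_⟩
  obtain ⟨m, x⟩ := p
  have := t1Pt (I := I) (m := m)
  rw [← Set.image_singleton]
  exact isClosedMap_sigmaMk _ isClosed_singleton

theorem gg_surj : Function.Surjective (gg : PP I → QQ I) := by
  rintro ⟨m, q⟩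
  obtain ⟨x, rfl⟩ := gm_surj q
  exact ⟨⟨m, x⟩, rfl⟩

theorem gg_fib (q : QQ I) : (gg ⁻¹' {q} : Set (PP I)).Finite := by
  obtain ⟨m, q⟩ := q
  refine ((gm_fib q).image (Sigma.mk m)).subset ?_
  rintro ⟨m', x⟩ hx
  have hx' : (⟨m', gm x⟩ : QQ I) = ⟨m, q⟩ := hx
  obtain ⟨rfl, h⟩ := Sigma.mk.inj_iff.1 hx'
  exact ⟨x, eq_of_heq h, rfl⟩

theorem gg_h4 (O : Set (PP I)) (hO : IsOpen O) : IsOpen {x | ∀ x', gg x' = gg x → x' ∈ O} := by
  rw [isOpen_sigma_iff] at *
  intro m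
  convert gm_h4 _ (hO m) using 1
  ext x
  simp only [mem_preimage, mem_ofPred_eq]
  constructor
  · intro h x' hx'
    exact h ⟨m, x'⟩ (by simp only [gg]; rw [hx'])
  · rintro h ⟨m', x'⟩ hx'
    have hx'' : (⟨m', gm x'⟩ : QQ I) = ⟨m, gm x⟩ := hx'
    obtain ⟨rfl, h1⟩ := Sigma.mk.inj_iff.1 hx''
    exact h x' (eq_of_heq h1)

theorem UU_open (v : I) : IsOpen (gg ⁻¹' UU v : Set (PP I)) := by
  rw [isOpen_sigma_iff]
  intro m
  exact Um_open v

theorem UU_cover (q : QQ I) : ∃ v, q ∈ UU v := Um_cover q.2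

theorem Rt_nonempty (τ : PP I → Set (PP I)) (x : PP I) : (Rt τ x).Nonempty :=
  (Rr_nonempty _ _ _ _).image _

theorem Rt_countable (τ : PP I → Set (PP I)) (x : PP I) : (Rt τ x).Countable :=
  ((Rr_finite _ _ _ _).image _).countable

theorem Rt_open (τ : PP I → Set (PP I)) (p : PP I) : IsOpen {x | p ∈ Rt τ x} := by
  rw [isOpen_sigma_iff]
  intro m
  obtain ⟨m', p⟩ := p
  by_cases h : m' = m
  · subst h
    convert Rp_open (restr m' τ) p using 1
    ext x
    simp only [Rt, mem_preimage, mem_ofPred_eq]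
    constructor
    · rintro ⟨p', hp', h⟩
      have : p' = p := eq_of_heq (Sigma.mk.inj_iff.1 h).2
      rw [← this]; exact hp'
    · intro h
      exact ⟨p, h, rfl⟩
  · convert isOpen_empty using 1
    ext x
    simp only [Rt, mem_preimage, mem_ofPred_eq, mem_empty_iff_false, iff_false]
    rintro ⟨p', hp', h'⟩
    exact h (Sigma.mk.inj_iff.1 h').1.symm

theorem Rt_code (τ : PP I → Set (PP I)) (hτ : ∀ p, IsOpen (τ p) ∧ p ∈ τ p) (p x : PP I)
    (hp : p ∈ Rt τ x) : x ∈ τ p := by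
  obtain ⟨m, x⟩ := x
  obtain ⟨p', hp', rfl⟩ := hp
  exact Rp_code (σ := restr m τ)
    (fun p => ⟨(isOpen_sigma_iff.1 (hτ ⟨m, p⟩).1) m, (hτ ⟨m, p⟩).2⟩) p' x hp'

open Classical in
theorem star_all (hI : ∀ k : ℕ, Cardinal.aleph (k : Ordinal.{0}) ≤ Cardinal.mk I) :
    Star (Rt (I := I)) gg (UU (I := I)) := by
  intro 𝔉 lam hlam
  obtain ⟨G, L, x, hG, hL, h⟩ := star_m hI (𝔉.image (restr 𝔉.card)) Finset.card_image_le
    (fun q => lam ⟨𝔉.card, q⟩) (fun q => hlam ⟨𝔉.card, q⟩)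
  refine ⟨Sigma.mk 𝔉.card '' G, L, fun t => ⟨𝔉.card, x t⟩, hG.image _, hL, fun t ht => ⟨?_, ?_⟩⟩
  · exact (h t ht).1
  · intro τ hτ
    exact Set.image_mono ((h t ht).2 _ (Finset.mem_image_of_mem _ hτ))

theorem final : ∃ (X Y : Type) (_ : TopologicalSpace X) (_ : TopologicalSpace Y) (f : X → Y),
    T1Space X ∧ T1Space Y ∧ Continuous f ∧ Function.Surjective f ∧ IsClosedMap f ∧
    (∀ y, (f ⁻¹' {y}).Finite) ∧ DeltaThetaRefinable X ∧ ¬ DeltaThetaRefinable Y := by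
  let I : Type := (Cardinal.aleph Ordinal.omega0).out
  have hmk : Cardinal.mk I = Cardinal.aleph Ordinal.omega0 := Cardinal.mk_out _
  have hI : ∀ k : ℕ, Cardinal.aleph (k : Ordinal.{0}) ≤ Cardinal.mk I := fun k => by
    rw [hmk]
    exact Cardinal.aleph_le_aleph.2 (Ordinal.natCast_lt_omega0 k).le
  have hunc : Uncountable I := by
    rw [← Cardinal.aleph0_lt_mk_iff]
    refine lt_of_lt_of_le ?_ (hI 1)
    simp
  refine ⟨XSp (PP I) I Rt, YSp I Rt gg, inferInstance, inferInstance, fmap, t1X,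
    t1Y gg_surj gg_h4, fmap_cont, fmap_surj gg_surj, fmap_closed gg_h4, fmap_fib gg_fib,
    thmA Rt_nonempty Rt_countable Rt_open Rt_code,
    thmC UU UU_open UU_cover (star_all hI)⟩

end Pool.Agent.Helper14.DT
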