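import Pool.Agent.Helper14.DT.Conc

/-!
# Roots of codes, and the verification of the crucial hypothesis for one value of `m`
-/

namespace Pool.Agent.Helper14.DT

open Set

variable {I : Type} {m : ℕ}

/-- codes on `Pt I m` -/
abbrev Code (I : Type) (m : ℕ) : Type := Pt I m → Set (Pt I m)

/-- `α` is large enough for the point `y` -/
def thrOK (σ : Code I m) (h : ℕ) (R : T I m h → Fin (m + 1) → Set (Pt I m)) (y : T I m h)
    (α : K h) : Prop :=
  ∀ l, ∀ p ∈ R y l, ∀ (y' : T I m (h + 1)) (j : Fin (m + 1)), (y' j).1 = y → α ≤ (y' j).2 →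
    (⟨h + 1, y', l⟩ : Pt I m) ∈ σ p

open Classical in
/-- a threshold, if there is one -/
noncomputable def thr (σ : Code I m) (h : ℕ) (R : T I m h → Fin (m + 1) → Set (Pt I m))
    (y : T I m h) : K h :=
  if H : ∃ α, thrOK σ h R y α then H.choose else Classical.arbitrary _

/-- a bound for the thresholds of all points with the given leaf tuple -/
noncomputable def bnd {h : ℕ} (a : T I m h → K h) (t : Pth m h → I) : K h :=
  (exists_bnd a t).choose

theorem lt_bnd {h : ℕ} (a : T I m h → K h) (y : T I m h) : a y < bnd a (leaves h y) :=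
  (exists_bnd a (leaves h y)).choose_spec y rfl

/-- the edge `j` of `y` is open for the view `l` -/
def opn {h : ℕ} (a : T I m h → K h) (b : (Pth m h → I) → K h) (y : T I m (h + 1))
    (l j : Fin (m + 1)) : Prop :=
  b (leaves h (y j).1) ≤ (y j).2 ∨ (l = j ∧ a (y j).1 ≤ (y j).2)

/-- the roots -/
noncomputable def Rr (σ : Code I m) : ∀ h, T I m h → Fin (m + 1) → Set (Pt I m)
  | 0 => fun y l => {⟨0, y, l⟩}
  | h + 1 => fun y l =>
    {p | (∃ j, opn (thr σ h (Rr σ h)) (bnd (thr σ h (Rr σ h))) y l j ∧ p ∈ Rr σ h (y j).1 l) ∨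
      ((∀ j, ¬ opn (thr σ h (Rr σ h)) (bnd (thr σ h (Rr σ h))) y l j) ∧ p = ⟨h + 1, y, l⟩)}

/-- thresholds -/
noncomputable def aa (σ : Code I m) (h : ℕ) : T I m h → K h := thr σ h (Rr σ h)

/-- bounds -/
noncomputable def bb (σ : Code I m) (h : ℕ) : (Pth m h → I) → K h := bnd (aa σ h)

theorem aa_lt_bb (σ : Code I m) (h : ℕ) (y : T I m h) : aa σ h y < bb σ h (leaves h y) :=
  lt_bnd _ _

theorem mem_Rr_succ {σ : Code I m} {h : ℕ} {y : T I m (h + 1)} {l : Fin (m + 1)} {p : Pt I m} :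
    p ∈ Rr σ (h + 1) y l ↔ (∃ j, opn (aa σ h) (bb σ h) y l j ∧ p ∈ Rr σ h (y j).1 l) ∨
      ((∀ j, ¬ opn (aa σ h) (bb σ h) y l j) ∧ p = ⟨h + 1, y, l⟩) := Iff.rfl

theorem Rr_finite (σ : Code I m) : ∀ h y l, (Rr σ h y l).Finite
  | 0, y, l => Set.finite_singleton _
  | h + 1, y, l => by
    have : Rr σ (h + 1) y l ⊆ (⋃ j, Rr σ h (y j).1 l) ∪ {⟨h + 1, y, l⟩} := by
      intro p hp
      rcases mem_Rr_succ.1 hp with ⟨j, _, h⟩ | ⟨_, h⟩
      · exact Or.inl (mem_iUnion.2 ⟨j, h⟩)
      · exact Or.inr h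
    exact ((Set.finite_iUnion fun j => Rr_finite σ h (y j).1 l).union
      (Set.finite_singleton _)).subset this

theorem Rr_nonempty (σ : Code I m) : ∀ h y l, (Rr σ h y l).Nonempty
  | 0, y, l => Set.singleton_nonempty _
  | h + 1, y, l => by
    by_cases hj : ∃ j, opn (aa σ h) (bb σ h) y l j
    · obtain ⟨j, hj⟩ := hj
      obtain ⟨p, hp⟩ := Rr_nonempty σ h (y j).1 l
      exact ⟨p, mem_Rr_succ.2 (Or.inl ⟨j, hj, hp⟩)⟩
    · push Not at hj
      exact ⟨_, mem_Rr_succ.2 (Or.inr ⟨hj, rfl⟩)⟩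

/-- roots on points -/
noncomputable def Rp (σ : Code I m) (x : Pt I m) : Set (Pt I m) := Rr σ x.h x.y x.l

theorem Rp_open (σ : Code I m) (p : Pt I m) : IsOpen {x | p ∈ Rp σ x} := by
  rw [isOpen_Pt]
  intro h y l hp
  refine ⟨bb σ h (leaves h y), fun y' j h1 h2 => ?_⟩
  refine mem_Rr_succ.2 (Or.inl ⟨j, Or.inl ?_, ?_⟩)
  · rw [h1]; exact h2
  · rw [h1]; exact hp

theorem Rr_code {σ : Code I m} (hσ : ∀ p, IsOpen (σ p) ∧ p ∈ σ p) :
    ∀ h, (∀ y l, ∀ p ∈ Rr σ h y l, (⟨h, y, l⟩ : Pt I m) ∈ σ p) ∧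
      ∀ y, thrOK σ h (Rr σ h) y (aa σ h y) := by
  have key : ∀ h, (∀ y l, ∀ p ∈ Rr σ h y l, (⟨h, y, l⟩ : Pt I m) ∈ σ p) →
      ∀ y, thrOK σ h (Rr σ h) y (aa σ h y) := by
    intro h hR y
    have hex : ∃ α, thrOK σ h (Rr σ h) y α := by
      have hfin : Finite (Σ l : Fin (m + 1), Rr σ h y l) := by
        have : ∀ l : Fin (m + 1), Finite (Rr σ h y l) := fun l => (Rr_finite σ h y l).to_subtype
        infer_instance
      have h1 : ∀ q : (Σ l : Fin (m + 1), Rr σ h y l), ∃ α : K h,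
          ∀ (y' : T I m (h + 1)) (j : Fin (m + 1)), (y' j).1 = y → α ≤ (y' j).2 →
          (⟨h + 1, y', q.1⟩ : Pt I m) ∈ σ q.2.1 := fun q =>
        isOpen_Pt.1 (hσ q.2.1).1 h y q.1 (hR y q.1 q.2.1 q.2.2)
      choose α hα using h1
      obtain ⟨β, hβ⟩ := K_bound_fin α
      exact ⟨β, fun l p hp y' j h1 h2 => hα ⟨l, p, hp⟩ y' j h1 ((hβ _).le.trans h2)⟩
    unfold aa thr
    rw [dif_pos hex]
    exact hex.choose_spec
  intro h
  induction h with
  | zero =>
    have h0 : ∀ (y : T I m 0) l, ∀ p ∈ Rr σ 0 y l, (⟨0, y, l⟩ : Pt I m) ∈ σ p := by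
      intro y l p hp
      have : p = ⟨0, y, l⟩ := hp
      rw [← this]
      exact (hσ p).2
    exact ⟨h0, key 0 h0⟩
  | succ h ih =>
    have h0 : ∀ (y : T I m (h + 1)) l, ∀ p ∈ Rr σ (h + 1) y l, (⟨h + 1, y, l⟩ : Pt I m) ∈ σ p := by
      intro y l p hp
      rcases mem_Rr_succ.1 hp with ⟨j, hj, hp'⟩ | ⟨_, hp'⟩
      · refine ih.2 (y j).1 l p hp' y j rfl ?_
        rcases hj with h1 | h1
        · exact (aa_lt_bb σ h _).le.trans h1
        · exact h1.2
      · rw [← hp']
        exact (hσ p).2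
    exact ⟨h0, key (h + 1) h0⟩

theorem Rp_code {σ : Code I m} (hσ : ∀ p, IsOpen (σ p) ∧ p ∈ σ p) (p x : Pt I m)
    (hp : p ∈ Rp σ x) : x ∈ σ p := (Rr_code hσ x.h).1 x.y x.l p hp

open Classical in
/-- the code in `S` maximising `f` -/
noncomputable def pick {h : ℕ} (S : Finset (Code I m)) (f : Code I m → K h) : Code I m :=
  if H : ∃ s ∈ S, ∀ s' ∈ S, f s' ≤ f s then H.choose else fun _ => ∅

theorem pick_spec {h : ℕ} {S : Finset (Code I m)} (hS : S.Nonempty) (f : Code I m → K h) :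
    pick S f ∈ S ∧ ∀ s' ∈ S, f s' ≤ f (pick S f) := by
  have H : ∃ s ∈ S, ∀ s' ∈ S, f s' ≤ f s := Finset.exists_max_image S f hS
  unfold pick
  rw [dif_pos H]
  exact H.choose_spec

open Classical in
/-- the point built from a finite set of codes and a leaf tuple -/
noncomputable def build : ∀ h, Finset (Code I m) → (Pth m h → I) → T I m h
  | 0, _, t => t ()
  | h + 1, S, t => fun j =>
    (build h (S.erase (pick S (fun s => bb s h (fun ρ => t (j, ρ))))) (fun ρ => t (j, ρ)),
      aa (pick S (fun s => aa s h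
          (build h (S.erase (pick S (fun s => bb s h (fun ρ => t (j, ρ))))) (fun ρ => t (j, ρ)))))
        h (build h (S.erase (pick S (fun s => bb s h (fun ρ => t (j, ρ))))) (fun ρ => t (j, ρ))))

theorem leaves_build : ∀ h (S : Finset (Code I m)) (t : Pth m h → I), leaves h (build h S t) = t
  | 0, S, t => rfl
  | h + 1, S, t => by
    funext ρ
    exact congrFun (leaves_build h _ (fun ρ' => t (ρ.1, ρ'))) ρ.2

open Classical in
/-- change the value of a tuple at one address -/
noncomputable def upd {N : Type} (t : N → I) (ρ : N) (v : I) : N → I :=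
  fun ρ' => if ρ' = ρ then v else t ρ'

open Classical in
/-- The core: the roots of the built point do not depend on the leaf at `ρ` (up to a finite set),
for views `l` not occurring on `ρ`. -/
theorem core : ∀ h (S : Finset (Code I m)), S.card = h → ∀ (ρ : Pth m h) (l : Fin (m + 1)),
    l ∉ vals h ρ → ∀ t : Pth m h → I, ∃ G : Set (Pt I m), G.Finite ∧
      ∀ v, ∀ s ∈ S, Rr s h (build h S (upd t ρ v)) l ⊆ G
  | 0, S, hS, ρ, l, _, t => by
    rw [Finset.card_eq_zero] at hS
    subst hS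
    exact ⟨∅, Set.finite_empty, fun v s hs => absurd hs (Finset.notMem_empty s)⟩
  | h + 1, S, hS, ρ, l, hl, t => by
    obtain ⟨ρ0, ρ'⟩ := ρ
    have hl0 : l ≠ ρ0 := fun e => hl (by
      change l ∈ insert ρ0 (vals h ρ'); rw [e]; exact Finset.mem_insert_self _ _)
    have hl' : l ∉ vals h ρ' := fun e => hl (Finset.mem_insert_of_mem e)
    have hSne : S.Nonempty := by
      rw [← Finset.card_pos, hS]; omega
    -- the bounds for the smaller sets
    have ih : ∀ s' : Code I m, ∃ G : Set (Pt I m), G.Finite ∧ (s' ∈ S →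
        ∀ v, ∀ s ∈ S.erase s', Rr s h (build h (S.erase s') (upd (fun ρ => t (ρ0, ρ)) ρ' v)) l
          ⊆ G) := by
      intro s'
      by_cases hs' : s' ∈ S
      · obtain ⟨G, hG, h1⟩ := core h (S.erase s') (by rw [Finset.card_erase_of_mem hs', hS]; rfl)
          ρ' l hl' (fun ρ => t (ρ0, ρ))
        exact ⟨G, hG, fun _ => h1⟩
      · exact ⟨∅, Set.finite_empty, fun h => absurd h hs'⟩
    choose G hG hG' using ih
    refine ⟨(⋃ s ∈ (S : Set (Code I m)), ⋃ j : Fin (m + 1), Rr s h (build (h + 1) S t j).1 l) ∪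
      ⋃ s' ∈ (S : Set (Code I m)), G s', ?_, ?_⟩
    · refine Set.Finite.union ?_ ?_
      · exact S.finite_toSet.biUnion fun s _ => Set.finite_iUnion fun j => Rr_finite _ _ _ _
      · exact S.finite_toSet.biUnion fun s _ => hG s
    · intro v s hs
      set t' : Pth m (h + 1) → I := upd t (ρ0, ρ') v with ht'
      have hj : ∀ j, j ≠ ρ0 → build (h + 1) S t' j = build (h + 1) S t j := by
        intro j hj
        have e : (fun ρ => t' (j, ρ)) = (fun ρ => t (j, ρ)) := by
          funext ρ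
          simp only [ht', upd]
          rw [if_neg]
          intro h
          exact hj (congrArg Prod.fst h)
        change (_, _) = (_, _)
        rw [e]
      have hρ : (fun ρ => t' (ρ0, ρ)) = upd (fun ρ => t (ρ0, ρ)) ρ' v := by
        funext ρ
        simp only [ht', upd]
        by_cases h : ρ = ρ'
        · subst h
          exact (if_pos rfl).trans (if_pos rfl).symm
        · rw [if_neg h, if_neg]
          intro h'
          exact h (congrArg Prod.snd h')
      -- the edge `l` is open for `s`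
      have hopen : opn (aa s h) (bb s h) (build (h + 1) S t') l l := by
        right
        refine ⟨rfl, ?_⟩
        exact (pick_spec hSne (fun s => aa s h (build (h + 1) S t' l).1)).2 s hs
      intro p hp
      rcases mem_Rr_succ.1 hp with ⟨j, hj1, hp'⟩ | ⟨hno, _⟩
      · by_cases hjρ : j = ρ0
        · subst hjρ
          right
          have hps := pick_spec hSne (fun s => bb s h (fun ρ => t' (j, ρ)))
          set s' := pick S (fun s => bb s h (fun ρ => t' (j, ρ))) with hs'
          have hb1 : (build (h + 1) S t' j).1 = build h (S.erase s') (fun ρ => t' (j, ρ)) := rfl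
          refine mem_iUnion₂.2 ⟨s', hps.1, ?_⟩
          have hne : s ≠ s' := by
            intro hss
            rcases hj1 with h1 | h1
            · -- contradiction by maximality
              have h2 : (build (h + 1) S t' j).2 < bb s' h (fun ρ => t' (j, ρ)) := by
                have h3 := pick_spec hSne (fun s => aa s h (build (h + 1) S t' j).1)
                set s'' := pick S (fun s => aa s h (build (h + 1) S t' j).1) with hs''
                have h4 : (build (h + 1) S t' j).2 = aa s'' h (build (h + 1) S t' j).1 := rfl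
                rw [h4]
                refine (aa_lt_bb s'' h _).trans_le ?_
                rw [hb1, leaves_build]
                exact hps.2 s'' h3.1
              rw [hb1, leaves_build, hss] at h1
              exact absurd h1 (not_le.2 h2)
            · exact hl0 h1.1
          rw [hb1, hρ] at hp'
          exact hG' s' hps.1 v s (Finset.mem_erase.2 ⟨hne, hs⟩) hp'
        · left
          rw [hj j hjρ] at hp'
          exact mem_iUnion₂.2 ⟨s, hs, mem_iUnion.2 ⟨j, hp'⟩⟩
      · exact absurd hopen (hno l)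

open Classical in
/-- the free set lemma -/
theorem free_set {N : Type} [Finite N] (hI : ∀ k : ℕ, Cardinal.aleph (k : Ordinal.{0}) ≤ Cardinal.mk I)
    (c : (N → I) → N) : ∃ (ρ : N) (t : N → I), ¬ {v | c (upd t ρ v) = ρ}.Countable := by
  by_contra hcon
  push Not at hcon
  have key : ∀ D : Finset N, ∀ (k : ℕ) (𝒴 : Set (N → I)),
      Cardinal.mk 𝒴 ≤ Cardinal.aleph (k : Ordinal.{0}) →
      ∃ w : N → I, ∀ t ∈ 𝒴, c (fun ρ => if ρ ∈ D then w ρ else t ρ) ∉ D := by
    intro D
    induction D using Finset.induction_on with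
    | empty =>
      intro k 𝒴 _
      have : Nonempty I := by
        rw [← Cardinal.mk_ne_zero_iff]
        exact (lt_of_lt_of_le (Cardinal.aleph_pos _) (hI 0)).ne'
      exact ⟨fun _ => Classical.arbitrary I, fun t _ => Finset.notMem_empty _⟩
    | insert d D hd ih =>
      intro k 𝒴 h𝒴
      obtain ⟨B, hB⟩ := Cardinal.le_mk_iff_exists_set.1 (hI (k + 1))
      let 𝒴' : Set (N → I) := (fun q : (N → I) × I => upd q.1 d q.2) '' (𝒴 ×ˢ B)
      have h𝒴' : Cardinal.mk 𝒴' ≤ Cardinal.aleph ((k + 1 : ℕ) : Ordinal.{0}) := by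
        refine Cardinal.mk_image_le.trans ?_
        rw [Cardinal.mk_setProd, hB]
        refine (mul_le_mul' (h𝒴.trans (Cardinal.aleph_le_aleph.2 ?_)) le_rfl).trans
          (Cardinal.mul_eq_self (aleph0_le_alephn (k + 1))).le
        exact_mod_cast Nat.le_succ k
      obtain ⟨w, hw⟩ := ih (k + 1) 𝒴' h𝒴'
      have hbad : Cardinal.mk (⋃ t ∈ 𝒴, {v | c (upd (fun ρ => if ρ ∈ D then w ρ else t ρ) d v) = d}
          : Set I) < Cardinal.mk B := by
        rw [hB]
        refine (Cardinal.mk_biUnion_le _ _).trans_lt ?_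
        refine lt_of_le_of_lt (mul_le_mul' h𝒴 (c := ⨆ t : 𝒴, Cardinal.mk
          {v | c (upd (fun ρ => if ρ ∈ D then w ρ else t.1 ρ) d v) = d}) (d := Cardinal.aleph0) ?_) ?_
        · refine ciSup_le' fun t => ?_
          exact Cardinal.mk_le_aleph0_iff.2 (hcon d _).to_subtype
        · rw [Cardinal.mul_eq_left (aleph0_le_alephn k) (aleph0_le_alephn k)
            Cardinal.aleph0_ne_zero]
          exact Cardinal.aleph_lt_aleph.2 (by exact_mod_cast Nat.lt_succ_self k)
      obtain ⟨v, hv, hvbad⟩ : ∃ v ∈ B, v ∉ (⋃ t ∈ 𝒴,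
          {v | c (upd (fun ρ => if ρ ∈ D then w ρ else t ρ) d v) = d} : Set I) := by
        by_contra h
        push Not at h
        exact absurd (Cardinal.mk_le_mk_of_subset (fun v hv => h v hv)) (not_le.2 hbad)
      refine ⟨upd w d v, fun t ht => ?_⟩
      have e1 : (fun ρ => if ρ ∈ insert d D then upd w d v ρ else t ρ) =
          upd (fun ρ => if ρ ∈ D then w ρ else t ρ) d v := by
        funext ρ
        simp only [upd, Finset.mem_insert]
        by_cases h : ρ = d
        · simp [h]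
        · simp [h]
      have e2 : (fun ρ => if ρ ∈ D then w ρ else upd t d v ρ) =
          upd (fun ρ => if ρ ∈ D then w ρ else t ρ) d v := by
        funext ρ
        simp only [upd]
        by_cases h : ρ = d
        · subst h; simp [hd]
        · simp [h]
      rw [e1, Finset.mem_insert, not_or]
      constructor
      · intro h
        exact hvbad (mem_iUnion₂.2 ⟨t, ht, h⟩)
      · rw [← e2]
        exact hw (upd t d v) ⟨(t, v), ⟨ht, hv⟩, rfl⟩
  cases nonempty_fintype N
  have : Nonempty I := by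
    rw [← Cardinal.mk_ne_zero_iff]
    exact (lt_of_lt_of_le (Cardinal.aleph_pos _) (hI 0)).ne'
  obtain ⟨w, hw⟩ := key Finset.univ 0 {fun _ => Classical.arbitrary I} (by
    rw [Cardinal.mk_singleton]
    exact Cardinal.one_lt_aleph0.le.trans (aleph0_le_alephn 0))
  exact hw _ rfl (Finset.mem_univ _)

/-- The crucial hypothesis, for one value of `m` and at most `m` codes. -/
theorem star_m (hI : ∀ k : ℕ, Cardinal.aleph (k : Ordinal.{0}) ≤ Cardinal.mk I)
    (𝔉 : Finset (Code I m)) (h𝔉 : 𝔉.card ≤ m) (lam : Qt I m → I) (hlam : ∀ q, q ∈ Um (lam q)) :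
    ∃ (G : Set (Pt I m)) (L : Set I) (x : I → Pt I m), G.Countable ∧ ¬ L.Countable ∧
      ∀ t ∈ L, lam (gm (x t)) = t ∧ ∀ τ ∈ 𝔉, Rp τ (x t) ⊆ G := by
  have hc : ∀ t : Pth m 𝔉.card → I, ∃ ρ, t ρ = lam ⟨𝔉.card, build 𝔉.card 𝔉 t⟩ := by
    intro t
    obtain ⟨ρ, hρ⟩ := hlam ⟨𝔉.card, build 𝔉.card 𝔉 t⟩
    refine ⟨ρ, ?_⟩
    rw [← hρ]
    exact (congrFun (leaves_build _ 𝔉 t) ρ).symm
  choose c hc using hc
  have := pth_finite (m := m) 𝔉.card
  obtain ⟨ρ, t, hL⟩ := free_set hI c
  obtain ⟨l, hl⟩ := exists_not_mem_vals h𝔉 ρ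
  obtain ⟨G, hG, hG'⟩ := core 𝔉.card 𝔉 rfl ρ l hl t
  refine ⟨G, _, fun v => ⟨𝔉.card, build 𝔉.card 𝔉 (upd t ρ v), l⟩, hG.countable, hL, ?_⟩
  intro v hv
  constructor
  · have h1 := hc (upd t ρ v)
    have hv' : c (upd t ρ v) = ρ := hv
    rw [hv'] at h1
    change lam ⟨𝔉.card, build 𝔉.card 𝔉 (upd t ρ v)⟩ = v
    rw [← h1]
    simp [upd]
  · intro τ hτ
    exact hG' v τ hτ

end Pool.Agent.Helper14.DT
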