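import Pool.Agent.Helper14.DT.Abs

/-!
# Selection of witnesses, and the failure downstairs
-/

namespace Pool.Agent.Helper14.DT

open Set

/-- general transfinite recursion with a solvable local problem -/
theorem wf_choose {J V : Type} (r : J → J → Prop) (hwf : WellFounded r)
    (Pr : ∀ j : J, (∀ i, r i j → V) → V → Prop) (h : ∀ j f, ∃ v, Pr j f v) :
    ∃ t : J → V, ∀ j, Pr j (fun i _ => t i) (t j) := by
  choose F hF using h
  refine ⟨hwf.fix F, fun j => ?_⟩
  rw [WellFounded.fix_eq]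
  exact hF j _

/-- an uncountable well-ordered index set with countable initial segments, split into countably
many uncountable pieces -/
theorem exists_index : ∃ (J : Type) (_ : LinearOrder J) (κ : J → ℕ),
    WellFounded (fun i j : J => i < j) ∧ (∀ j : J, (Iio j).Countable) ∧
    ∀ k, ¬ {j | κ j = k}.Countable := by
  let J : Type := (Cardinal.aleph 1).ord.ToType
  have hJ : Cardinal.mk J = Cardinal.aleph 1 := Cardinal.mk_ord_toType _
  have h1 : Cardinal.mk (J × ℕ) = Cardinal.mk J := by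
    rw [Cardinal.mk_prod, hJ]
    simp only [Cardinal.lift_id, Cardinal.mk_nat]
    exact Cardinal.mul_eq_left (Cardinal.aleph0_le_aleph 1) (Cardinal.aleph0_le_aleph 1)
      Cardinal.aleph0_ne_zero
  obtain ⟨e⟩ := Cardinal.eq.1 h1
  refine ⟨J, inferInstance, fun j => (e.symm j).2, wellFounded_lt, ?_, ?_⟩
  · intro j
    rw [← Cardinal.le_aleph0_iff_set_countable]
    have := Cardinal.mk_Iio_lt j (by rw [hJ]; exact (Ordinal.type_toType _).symm)
    rw [← Cardinal.lt_aleph_one_iff]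
    exact this.trans_eq hJ
  · intro k hk
    have : (range fun j : J => e (j, k)).Countable := hk.mono (by
      rintro _ ⟨j, rfl⟩
      simp)
    have hinj : Function.Injective fun j : J => e (j, k) := by
      intro a b h
      simpa using h
    have h2 : Countable J := by
      have := this.to_subtype
      exact (Equiv.ofInjective _ hinj).symm.countable_iff.1 this
    rw [← Cardinal.mk_le_aleph0_iff, hJ] at h2
    exact absurd h2 (not_le.2 Cardinal.aleph0_lt_aleph_one)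

/-- an uncountable set minus a countable set is non-empty -/
theorem exists_mem_not_mem {V : Type} {L B : Set V} (hL : ¬ L.Countable) (hB : B.Countable) :
    ∃ v ∈ L, v ∉ B := by
  by_contra h
  push Not at h
  exact hL (hB.mono h)

/-- The selection lemma. -/
theorem selection {Λ 𝔗 : Type} (L : ℕ → Set Λ) (hL : ∀ k, ¬ (L k).Countable)
    (E : ℕ → Λ → Finset 𝔗) (R : ℕ → Finset 𝔗)
    (hR : ∀ k, ∀ τ ∉ R k, {t | t ∈ L k ∧ τ ∈ E k t}.Countable) :
    ∃ (J : Type) (κ : J → ℕ) (t : J → Λ), (∀ k, ¬ {j | κ j = k}.Countable) ∧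
      Function.Injective t ∧ (∀ j, t j ∈ L (κ j)) ∧
      ∀ i j, i ≠ j → ∀ τ, τ ∉ R (κ i) → τ ∉ R (κ j) → τ ∈ E (κ i) (t i) → τ ∉ E (κ j) (t j) := by
  obtain ⟨J, _, κ, hwf, hJ, hκ⟩ := exists_index
  obtain ⟨t, ht⟩ := wf_choose (V := Λ) (fun i j : J => i < j) hwf
    (fun j f v => v ∈ L (κ j) ∧ (∀ i (hi : i < j), f i hi ≠ v) ∧
      ∀ i (hi : i < j), ∀ τ ∈ E (κ i) (f i hi), τ ∉ R (κ j) → τ ∉ E (κ j) v) (by
    intro j f
    let B : Set Λ := ⋃ i : Iio j, ({f i.1 i.2} ∪ ⋃ τ ∈ {τ | τ ∈ E (κ i) (f i.1 i.2) ∧ τ ∉ R (κ j)},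
      {t | t ∈ L (κ j) ∧ τ ∈ E (κ j) t})
    have hB : B.Countable := by
      have : Countable (Iio j) := (hJ j).to_subtype
      refine countable_iUnion fun i => (countable_singleton _).union ?_
      refine Set.Countable.biUnion ?_ fun τ hτ => hR _ τ hτ.2
      exact ((E (κ i) (f i.1 i.2)).finite_toSet.subset fun τ hτ => hτ.1).countable
    obtain ⟨v, hv, hvB⟩ := exists_mem_not_mem (hL (κ j)) hB
    simp only [B, mem_iUnion, not_exists] at hvB
    refine ⟨v, hv, fun i hi h => hvB ⟨i, hi⟩ (Or.inl h.symm), fun i hi τ hτ hτR hτv => ?_⟩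
    refine hvB ⟨i, hi⟩ (Or.inr ?_)
    simp only [mem_iUnion]
    exact ⟨τ, ⟨hτ, hτR⟩, hv, hτv⟩)
  refine ⟨J, κ, t, hκ, ?_, fun j => (ht j).1, ?_⟩
  · intro i j hij
    by_contra hne
    rcases lt_or_gt_of_ne hne with h | h
    · exact (ht j).2.1 i h hij
    · exact (ht i).2.1 j h hij.symm
  · intro i j hij τ hτi hτj hi hj
    rcases lt_or_gt_of_ne hij with h | h
    · exact (ht j).2.2 i h τ hi hτj hj
    · exact (ht i).2.2 j h τ hj hτi hi

/-- A family of finite sets indexed by an uncountable set: after thinning there is a finite set `R`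
such that every element outside `R` lies in only countably many members. -/
theorem thin_root {Λ 𝔗 : Type} [DecidableEq 𝔗] (n : ℕ) :
    ∀ (L : Set Λ) (_ : ¬ L.Countable) (E : Λ → Finset 𝔗) (_ : ∀ t ∈ L, (E t).card ≤ n),
      ∃ L' ⊆ L, ¬ L'.Countable ∧ ∃ R : Finset 𝔗, ∀ τ ∉ R, {t | t ∈ L' ∧ τ ∈ E t}.Countable := by
  induction n with
  | zero =>
    intro L hL E hE
    refine ⟨L, Subset.rfl, hL, ∅, fun τ _ => ?_⟩
    have : {t | t ∈ L ∧ τ ∈ E t} = ∅ := by
      ext t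
      simp only [mem_ofPred_eq, mem_empty_iff_false, iff_false, not_and]
      intro ht hτ
      have := hE t ht
      simp only [nonpos_iff_eq_zero, Finset.card_eq_zero] at this
      simp [this] at hτ
    rw [this]
    exact countable_empty
  | succ n ih =>
    intro L hL E hE
    by_cases h : ∀ τ, {t | t ∈ L ∧ τ ∈ E t}.Countable
    · exact ⟨L, Subset.rfl, hL, ∅, fun τ _ => h τ⟩
    · push Not at h
      obtain ⟨τ₀, hτ₀⟩ := h
      obtain ⟨L', hL', hL'c, R, hR⟩ := ih {t | t ∈ L ∧ τ₀ ∈ E t} hτ₀ (fun t => (E t).erase τ₀)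
        (fun t ht => by
          rw [Finset.card_erase_of_mem ht.2]
          have := hE t ht.1
          omega)
      refine ⟨L', fun t ht => (hL' ht).1, hL'c, insert τ₀ R, fun τ hτ => ?_⟩
      rw [Finset.mem_insert, not_or] at hτ
      refine (hR τ hτ.2).mono ?_
      rintro t ⟨ht, hτt⟩
      exact ⟨ht, Finset.mem_erase.2 ⟨hτ.1, hτt⟩⟩

/-- thinning an uncountable set so that a function to `ℕ` is constant -/
theorem thin_nat {Λ : Type} (L : Set Λ) (hL : ¬ L.Countable) (f : Λ → ℕ) :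
    ∃ n, ¬ {t | t ∈ L ∧ f t = n}.Countable := by
  by_contra h
  push Not at h
  refine hL ((countable_iUnion h).mono fun t ht => ?_)
  exact mem_iUnion.2 ⟨f t, ht, rfl⟩

/-- only finitely many `c` are in almost all `F t` -/
theorem bad_countable {Λ C : Type} (L : Set Λ) (hL : ¬ L.Countable) (F : Λ → Finset C) :
    {c | {t | t ∈ L ∧ c ∉ F t}.Countable}.Countable := by
  by_contra h
  have hinf : {c | {t | t ∈ L ∧ c ∉ F t}.Countable}.Infinite := fun hf => h hf.countable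
  obtain ⟨B, hB, hBc, hBi⟩ : ∃ B ⊆ {c | {t | t ∈ L ∧ c ∉ F t}.Countable}, B.Countable ∧ B.Infinite := by
    obtain ⟨f, hf⟩ := hinf.natEmbedding
    refine ⟨range fun n => (hinf.natEmbedding _ n).1, ?_, countable_range _, ?_⟩
    · rintro _ ⟨n, rfl⟩
      exact (hinf.natEmbedding _ n).2
    · refine infinite_range_of_injective fun a b hab => ?_
      exact (hinf.natEmbedding _).injective (Subtype.ext hab)
  obtain ⟨t, ht, htB⟩ := exists_mem_not_mem hL (B := ⋃ c ∈ B, {t | t ∈ L ∧ c ∉ F t})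
    (hBc.biUnion fun c hc => hB hc)
  refine hBi ((F t).finite_toSet.subset fun c hc => ?_)
  by_contra hc'
  exact htB (mem_biUnion hc ⟨ht, hc'⟩)

/-- the image of an uncountable set under an injective map is uncountable -/
theorem not_countable_image {A B : Type} {f : A → B} (hf : Function.Injective f) {S : Set A}
    (hS : ¬ S.Countable) : ¬ (f '' S).Countable := fun h =>
  hS (Set.countable_of_injective_of_countable_image hf.injOn h)

variable {P Q C Λ : Type} {Rt : (P → Set P) → P → Set P} {g : P → Q}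

/-- The crucial hypothesis on `(P, Q, g, Rt, U)`. -/
def Star (Rt : (P → Set P) → P → Set P) (g : P → Q) (U : Λ → Set Q) : Prop :=
  ∀ (𝔉 : Finset (P → Set P)) (lam : Q → Λ), (∀ q, q ∈ U (lam q)) →
    ∃ (G : Set P) (L : Set Λ) (x : Λ → P), G.Countable ∧ ¬ L.Countable ∧
      ∀ t ∈ L, lam (g (x t)) = t ∧ ∀ τ ∈ 𝔉, Rt τ (x t) ⊆ G

open Classical in
theorem main_sel [Uncountable C] {U : Λ → Set Q} (hstar : Star Rt g U)
    (lam : ℕ → Q → Λ) (hlam : ∀ k q, q ∈ U (lam k q)) (E : ℕ → P → Finset (P → Set P))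
    (j : ℕ → P → ℕ) (F : ℕ → P → Finset C) :
    ∃ w : Wit P C, ∀ k, ∃ (M : Set Λ) (x : Λ → P), ¬ M.Countable ∧
      ∀ t ∈ M, lam k (g (x t)) = t ∧ Capt Rt (x t) (E k (x t)) (j k (x t)) (F k (x t)) w := by
  have step : ∀ (𝔉 : Finset (P → Set P)) (k : ℕ), ∃ (G : Set P) (L : Set Λ) (x : Λ → P) (n : ℕ)
      (R : Finset (P → Set P)), G.Countable ∧ ¬ L.Countable ∧
      (∀ t ∈ L, lam k (g (x t)) = t ∧ (∀ τ ∈ 𝔉, Rt τ (x t) ⊆ G) ∧ j k (x t) = n) ∧
      ∀ τ ∉ R, {t | t ∈ L ∧ τ ∈ E k (x t)}.Countable := by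
    intro 𝔉 k
    obtain ⟨G, L, x, hG, hL, h⟩ := hstar 𝔉 (lam k) (hlam k)
    obtain ⟨n, hn⟩ := thin_nat L hL (fun t => j k (x t))
    obtain ⟨m, hm⟩ := thin_nat _ hn (fun t => (E k (x t)).card)
    obtain ⟨L', hL', hL'c, R, hR⟩ := thin_root m _ hm (fun t => E k (x t)) (fun t ht => ht.2.le)
    exact ⟨G, L', x, n, R, hG, hL'c, fun t ht => ⟨(h t (hL' ht).1.1).1, (h t (hL' ht).1.1).2,
      (hL' ht).1.2⟩, hR⟩
  choose G L x n R hG hL hx hR using step
  let 𝔉 : ℕ → Finset (P → Set P) := fun k =>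
    Nat.rec (motive := fun _ => Finset (P → Set P)) ∅ (fun k 𝔉 => 𝔉 ∪ R 𝔉 k) k
  have h𝔉 : ∀ k, 𝔉 (k + 1) = 𝔉 k ∪ R (𝔉 k) k := fun k => rfl
  have hmono : Monotone 𝔉 := monotone_nat_of_le_succ fun k => by
    rw [h𝔉]; exact Finset.subset_union_left
  obtain ⟨J, κ, t, hκ, htinj, htL, hsel⟩ := selection (fun k => L (𝔉 k) k) (fun k => hL _ _)
    (fun k t => E k (x (𝔉 k) k t)) (fun k => R (𝔉 k) k) (fun k => hR _ _)
  let A : Set P := ⋃ k, G (𝔉 k) k
  have hA : A.Countable := countable_iUnion fun k => hG _ _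
  have hK : ∀ τ : P → Set P, ∃ K : ℕ, ∀ i : J, τ ∈ E (κ i) (x (𝔉 (κ i)) (κ i) (t i)) →
      n (𝔉 (κ i)) (κ i) < K ∨ Rt τ (x (𝔉 (κ i)) (κ i) (t i)) ⊆ A := by
    intro τ
    by_cases hτ : ∃ k, τ ∈ 𝔉 k
    · obtain ⟨k₀, hk₀⟩ := hτ
      refine ⟨(Finset.range k₀).sup (fun k => n (𝔉 k) k) + 1, fun i _ => ?_⟩
      rcases lt_or_ge (κ i) k₀ with h | h
      · left
        exact Nat.lt_succ_of_le (Finset.le_sup (f := fun k => n (𝔉 k) k) (Finset.mem_range.2 h))
      · right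
        exact ((hx _ _ _ (htL i)).2.1 τ (hmono h hk₀)).trans
          (subset_iUnion (fun k => G (𝔉 k) k) (κ i))
    · push Not at hτ
      have hτR : ∀ k, τ ∉ R (𝔉 k) k := fun k hk => hτ (k + 1) (by
        rw [h𝔉]; exact Finset.mem_union_right _ hk)
      by_cases hi : ∃ i, τ ∈ E (κ i) (x (𝔉 (κ i)) (κ i) (t i))
      · obtain ⟨i, hi⟩ := hi
        refine ⟨n (𝔉 (κ i)) (κ i) + 1, fun i' hi' => Or.inl ?_⟩
        have : i = i' := by
          by_contra hne
          exact hsel i i' hne τ (hτR _) (hτR _) hi hi'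
        subst this
        exact Nat.lt_succ_self _
      · push Not at hi
        exact ⟨0, fun i h => absurd h (hi i)⟩
  choose K hK using hK
  have hM : ∀ k, ¬ (t '' {i | κ i = k}).Countable := fun k => not_countable_image htinj (hκ k)
  obtain ⟨c, hc⟩ : ∃ c : C, c ∉ ⋃ k, {c | {s | s ∈ t '' {i | κ i = k} ∧
      c ∉ F k (x (𝔉 k) k s)}.Countable} := by
    by_contra h
    push Not at h
    have : (univ : Set C).Countable :=
      (countable_iUnion fun k => bad_countable _ (hM k) (fun s => F k (x (𝔉 k) k s))).mono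
        fun c _ => h c
    exact not_countable_univ this
  simp only [mem_iUnion, not_exists, mem_ofPred_eq] at hc
  refine ⟨⟨K, A, hA, c⟩, fun k => ⟨_, x (𝔉 k) k, hc k, ?_⟩⟩
  rintro s ⟨⟨i, hi, rfl⟩, hcF⟩
  have hi' : κ i = k := hi
  subst hi'
  refine ⟨(hx _ _ _ (htL i)).1, hcF, fun τ hτ => ?_⟩
  have := hK τ i hτ
  rwa [← (hx _ _ _ (htL i)).2.2] at this

/-- `Y` is not `δθ`-refinable. -/
theorem thmC [TopologicalSpace P] [Uncountable C] [Nonempty Λ] (U : Λ → Set Q)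
    (hUo : ∀ t, IsOpen (g ⁻¹' U t)) (hUc : ∀ q, ∃ t, q ∈ U t) (hstar : Star Rt g U) :
    ¬ DeltaThetaRefinable (YSp C Rt g) := by
  intro hY
  obtain ⟨𝒱, h𝒱, hcount⟩ := hY (range fun t : Λ => (YSp.pt '' U t ∪ range YSp.wt : Set (YSp C Rt g)))
    (by
      rintro _ ⟨t, rfl⟩
      rw [isOpen_Y, isOpen_X]
      constructor
      · convert hUo t using 1
        ext x
        simp [fmap]
      · intro x _
        exact ⟨∅, 0, ∅, fun w _ => Or.inr ⟨w, rfl⟩⟩)
    (by
      refine eq_univ_of_forall fun y => ?_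
      rcases y with q | w
      · obtain ⟨t, ht⟩ := hUc q
        exact ⟨_, ⟨t, rfl⟩, Or.inl ⟨q, ht, rfl⟩⟩
      · exact ⟨_, ⟨Classical.arbitrary Λ, rfl⟩, Or.inr ⟨w, rfl⟩⟩)
  have hS : ∀ k (q : Q), ∃ S ∈ 𝒱 k, YSp.pt q ∈ S := fun k q => by
    have : (YSp.pt q : YSp C Rt g) ∈ ⋃₀ 𝒱 k := by rw [(h𝒱 k).2.1]; trivial
    exact this
  choose S hS𝒱 hqS using hS
  have hμ : ∀ k (V : Set (YSp C Rt g)), ∃ t : Λ, V ∈ 𝒱 k → V ⊆ YSp.pt '' U t ∪ range YSp.wt := by
    intro k V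
    by_cases hV : V ∈ 𝒱 k
    · obtain ⟨_, ⟨t, rfl⟩, h⟩ := (h𝒱 k).2.2 V hV
      exact ⟨t, fun _ => h⟩
    · exact ⟨Classical.arbitrary Λ, fun h => absurd h hV⟩
  choose μ hμ using hμ
  have hlam : ∀ k q, q ∈ U (μ k (S k q)) := by
    intro k q
    rcases hμ k (S k q) (hS𝒱 k q) (hqS k q) with ⟨q', hq', h⟩ | ⟨w, h⟩
    · cases h; exact hq'
    · cases h
  have hdata : ∀ k (x : P), ∃ (E : Finset (P → Set P)) (j : ℕ) (F : Finset C),
      ∀ w, Capt Rt x E j F w → YSp.wt w ∈ S k (g x) := by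
    intro k x
    have := (h𝒱 k).1 _ (hS𝒱 k (g x))
    rw [isOpen_Y, isOpen_X] at this
    exact this.2 x (hqS k (g x))
  choose E j F hcap using hdata
  obtain ⟨w, hw⟩ := main_sel hstar (fun k q => μ k (S k q)) hlam E j F
  obtain ⟨k, hk⟩ := hcount (.wt w)
  obtain ⟨M, x, hM, hx⟩ := hw k
  refine hM ?_
  have himg : ((fun t => S k (g (x t))) '' M).Countable := by
    refine hk.mono ?_
    rintro _ ⟨t, ht, rfl⟩
    exact ⟨hS𝒱 _ _, hcap k (x t) w (hx t ht).2⟩
  refine Set.countable_of_injective_of_countable_image ?_ himg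
  intro t ht t' ht' h
  have h' : μ k (S k (g (x t))) = μ k (S k (g (x t'))) := congrArg (μ k) h
  rw [← (hx t ht).1, ← (hx t' ht').1]
  exact h'

end Pool.Agent.Helper14.DT
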